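import Pool.Agent.Helper5.NE.Stmts

namespace Pool.Agent.Helper8.NE

open Pool.Agent.Helper5.NE
open scoped InnerProductSpace ComplexConjugate
open Module Filter

theorem cs {ι : Type*} (s : Finset ι) (x y : ι → ℂ) :
    ‖∑ i ∈ s, x i * y i‖ ≤ √(∑ i ∈ s, ‖x i‖ ^ 2) * √(∑ i ∈ s, ‖y i‖ ^ 2) := by
  calc ‖∑ i ∈ s, x i * y i‖ ≤ ∑ i ∈ s, ‖x i * y i‖ := norm_sum_le _ _
    _ = ∑ i ∈ s, ‖x i‖ * ‖y i‖ := by simp only [norm_mul]
    _ ≤ _ := Real.sum_mul_le_sqrt_mul_sqrt _ _ _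

theorem cs2 {ι κ : Type*} [Fintype ι] [Fintype κ] (x y : ι → κ → ℂ) :
    ‖∑ i, ∑ j, x i j * y i j‖ ≤ √(∑ i, ∑ j, ‖x i j‖ ^ 2) * √(∑ i, ∑ j, ‖y i j‖ ^ 2) := by
  have := cs (Finset.univ : Finset (ι × κ)) (fun p => x p.1 p.2) (fun p => y p.1 p.2)
  simpa only [Fintype.sum_prod_type] using this

theorem csr2 {ι κ : Type*} [Fintype ι] [Fintype κ] (x y : ι → κ → ℝ) :
    ∑ i, ∑ j, x i j * y i j ≤ √(∑ i, ∑ j, x i j ^ 2) * √(∑ i, ∑ j, y i j ^ 2) := by
  have := Real.sum_mul_le_sqrt_mul_sqrt (Finset.univ : Finset (ι × κ))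
    (fun p => x p.1 p.2) (fun p => y p.1 p.2)
  simpa only [Fintype.sum_prod_type] using this

theorem cs3 {ι κ μ : Type*} [Fintype ι] [Fintype κ] [Fintype μ] (x y : ι → κ → μ → ℂ) :
    ‖∑ i, ∑ j, ∑ l, x i j l * y i j l‖ ≤
      √(∑ i, ∑ j, ∑ l, ‖x i j l‖ ^ 2) * √(∑ i, ∑ j, ∑ l, ‖y i j l‖ ^ 2) := by
  have := cs (Finset.univ : Finset (ι × κ × μ)) (fun p => x p.1 p.2.1 p.2.2)
    (fun p => y p.1 p.2.1 p.2.2)
  simpa only [Fintype.sum_prod_type] using this

theorem sum4 {α β γ δ M : Type*} [Fintype α] [Fintype β] [Fintype γ] [Fintype δ]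
    [AddCommMonoid M] (F : α → β → γ → δ → M) :
    ∑ c, ∑ d, ∑ a, ∑ b, F a b c d = ∑ a, ∑ b, ∑ c, ∑ d, F a b c d := by
  calc ∑ c, ∑ d, ∑ a, ∑ b, F a b c d
      = ∑ c, ∑ a, ∑ d, ∑ b, F a b c d := Finset.sum_congr rfl fun c _ => Finset.sum_comm
    _ = ∑ a, ∑ c, ∑ d, ∑ b, F a b c d := Finset.sum_comm
    _ = ∑ a, ∑ c, ∑ b, ∑ d, F a b c d :=
        Finset.sum_congr rfl fun a _ => Finset.sum_congr rfl fun c _ => Finset.sum_comm
    _ = ∑ a, ∑ b, ∑ c, ∑ d, F a b c d := Finset.sum_congr rfl fun a _ => Finset.sum_comm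

/-- Orthogonal family of sum zero functions with squared norms `p a`. -/
structure Sch (n k : ℕ) (p : Fin n → ℝ) (z : Fin n → Fin k → ℂ) : Prop where
  nonneg : ∀ a, 0 ≤ p a
  orth : ∀ a b, ∑ c, z a c * conj (z b c) = if a = b then (p a : ℂ) else 0
  zero : ∀ a, ∑ c, z a c = 0

/-- the kernel `∑ z_a ⊗ conj z_a` -/
noncomputable def gram {n k : ℕ} (z : Fin n → Fin k → ℂ) (c d : Fin k) : ℂ :=
  ∑ a, z a c * conj (z a d)

section gram

variable {n k : ℕ} {p : Fin n → ℝ} {z : Fin n → Fin k → ℂ}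

theorem gram_hs (h : Sch n k p z) : ∑ c, ∑ d, ‖gram z c d‖ ^ 2 = ∑ a, p a ^ 2 := by
  have key : ((∑ c, ∑ d, ‖gram z c d‖ ^ 2 : ℝ) : ℂ) = ((∑ a, p a ^ 2 : ℝ) : ℂ) := by
    push_cast
    calc ∑ c, ∑ d, (‖gram z c d‖ : ℂ) ^ 2 = ∑ c, ∑ d, gram z c d * conj (gram z c d) := by
          refine Finset.sum_congr rfl fun c _ => Finset.sum_congr rfl fun d _ => ?_
          rw [Complex.mul_conj']
      _ = ∑ c, ∑ d, ∑ a, ∑ b, (z a c * conj (z b c)) * (z b d * conj (z a d)) := by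
          refine Finset.sum_congr rfl fun c _ => Finset.sum_congr rfl fun d _ => ?_
          rw [gram, map_sum, Finset.sum_mul_sum]
          refine Finset.sum_congr rfl fun a _ => Finset.sum_congr rfl fun b _ => ?_
          rw [map_mul, Complex.conj_conj]
          ring
      _ = ∑ a, ∑ b, ∑ c, ∑ d, (z a c * conj (z b c)) * (z b d * conj (z a d)) := sum4 _
      _ = ∑ a, ∑ b, (∑ c, z a c * conj (z b c)) * (∑ d, z b d * conj (z a d)) := by
          refine Finset.sum_congr rfl fun a _ => Finset.sum_congr rfl fun b _ => ?_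
          rw [Finset.sum_mul_sum]
      _ = ∑ a, ∑ b, (if a = b then (p a : ℂ) else 0) * (if b = a then (p b : ℂ) else 0) := by
          refine Finset.sum_congr rfl fun a _ => Finset.sum_congr rfl fun b _ => ?_
          rw [h.orth, h.orth]
      _ = ∑ a, (p a : ℂ) ^ 2 := by
          refine Finset.sum_congr rfl fun a _ => ?_
          rw [Finset.sum_eq_single a]
          · simp [sq]
          · intro b _ hb
            simp [hb.symm]
          · simp
  exact_mod_cast key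

theorem gram_trace (h : Sch n k p z) : ∑ c, gram z c c = ((∑ a, p a : ℝ) : ℂ) := by
  unfold gram
  rw [Finset.sum_comm]
  push_cast
  refine Finset.sum_congr rfl fun a _ => ?_
  rw [h.orth, if_pos rfl]

theorem gram_sum (h : Sch n k p z) : ∑ c, ∑ d, gram z c d = 0 := by
  unfold gram
  refine Finset.sum_eq_zero fun c _ => ?_
  rw [Finset.sum_comm]
  refine Finset.sum_eq_zero fun a _ => ?_
  rw [← Finset.mul_sum, ← map_sum, h.zero, map_zero, mul_zero]

theorem sum_p_le (p : Fin n → ℝ) : ∑ a, p a ≤ √n * √(∑ a, p a ^ 2) := by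
  have := Real.sum_mul_le_sqrt_mul_sqrt (Finset.univ : Finset (Fin n)) (fun _ => 1) p
  simpa using this

end gram

/-- Schmidt decomposition of a finite family of vectors. -/
theorem schmidt {L : Type} [NormedAddCommGroup L] [InnerProductSpace ℂ L]
    [FiniteDimensional ℂ L] {k : ℕ} (Z : Fin k → L) (hZ : ∑ c, Z c = 0) :
    ∃ (b : OrthonormalBasis (Fin (finrank ℂ L)) ℂ L) (p : Fin (finrank ℂ L) → ℝ)
      (z : Fin (finrank ℂ L) → Fin k → ℂ), Sch (finrank ℂ L) k p z ∧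
      (∀ a c, ⟪b a, Z c⟫_ℂ = ((√(p a) : ℝ) : ℂ) * z a c) ∧ ∑ a, p a ^ 2 = ∑ c, ‖Z c‖ ^ 2 := by
  classical
  set G : L →ₗ[ℂ] L := ∑ c, ((InnerProductSpace.rankOne ℂ (Z c) (Z c) : L →L[ℂ] L) : L →ₗ[ℂ] L)
    with hG
  have hGa : ∀ x, G x = ∑ c, ⟪Z c, x⟫_ℂ • Z c := by
    intro x
    simp [hG, LinearMap.sum_apply]
  have hsym : G.IsSymmetric := by
    intro x y
    rw [hGa, hGa, sum_inner, inner_sum]
    refine Finset.sum_congr rfl fun c _ => ?_
    rw [inner_smul_left, inner_smul_right, inner_conj_symm, mul_comm]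
  set b := hsym.eigenvectorBasis rfl with hb
  set s := hsym.eigenvalues rfl with hs
  set y : Fin (finrank ℂ L) → Fin k → ℂ := fun a c => ⟪b a, Z c⟫_ℂ with hy
  have horth : ∀ a a', ∑ c, y a c * conj (y a' c) = if a = a' then (s a : ℂ) else 0 := by
    intro a a'
    have h1 : ⟪b a, G (b a')⟫_ℂ = ∑ c, y a c * conj (y a' c) := by
      rw [hGa, inner_sum]
      refine Finset.sum_congr rfl fun c _ => ?_
      rw [inner_smul_right, mul_comm]
      simp only [hy, inner_conj_symm]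
    rw [← h1, hb, hsym.apply_eigenvectorBasis rfl a', inner_smul_right]
    rw [← hb, OrthonormalBasis.inner_eq_ite]
    split_ifs with h2
    · rw [h2, mul_one]; rfl
    · rw [mul_zero]
  have hself : ∀ a, s a = ∑ c, ‖y a c‖ ^ 2 := by
    intro a
    have h1 := horth a a
    rw [if_pos rfl] at h1
    have h2 : ((∑ c, ‖y a c‖ ^ 2 : ℝ) : ℂ) = (s a : ℂ) := by
      rw [← h1]
      push_cast
      refine Finset.sum_congr rfl fun c _ => ?_
      rw [Complex.mul_conj']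
    exact_mod_cast h2.symm
  have hs0 : ∀ a, 0 ≤ s a := fun a => by
    rw [hself]; positivity
  have hzero : ∀ a, s a = 0 → ∀ c, y a c = 0 := by
    intro a ha c
    rw [hself] at ha
    have h1 := (Finset.sum_eq_zero_iff_of_nonneg (fun c _ => by positivity)).mp ha c
      (Finset.mem_univ c)
    simpa using h1
  have hps : ∀ a, √(s a) = 0 → s a = 0 := fun a h => (Real.sqrt_eq_zero (hs0 a)).mp h
  have hqs : ∀ a, √(√(s a)) = 0 → s a = 0 := fun a h =>
    hps a ((Real.sqrt_eq_zero (Real.sqrt_nonneg _)).mp h)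
  refine ⟨b, fun a => √(s a), fun a c => y a c / ((√(√(s a)) : ℝ) : ℂ), ⟨?_, ?_, ?_⟩, ?_, ?_⟩
  · intro a
    exact Real.sqrt_nonneg _
  · intro a a'
    have h1 : ∑ c, y a c / ((√(√(s a)) : ℝ) : ℂ) * conj (y a' c / ((√(√(s a')) : ℝ) : ℂ)) =
        (∑ c, y a c * conj (y a' c)) / (((√(√(s a)) : ℝ) : ℂ) * ((√(√(s a')) : ℝ) : ℂ)) := by
      rw [Finset.sum_div]
      refine Finset.sum_congr rfl fun c _ => ?_
      rw [map_div₀, Complex.conj_ofReal, div_mul_div_comm]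
    rw [h1, horth]
    split_ifs with h2
    · subst h2
      rw [← Complex.ofReal_mul, Real.mul_self_sqrt (Real.sqrt_nonneg _), ← Complex.ofReal_div,
        Real.div_sqrt]
    · rw [zero_div]
  · intro a
    rw [← Finset.sum_div]
    have : ∑ c, y a c = 0 := by
      simp only [hy]
      rw [← inner_sum, hZ, inner_zero_right]
    rw [this, zero_div]
  · intro a c
    change y a c = _
    by_cases h1 : √(√(s a)) = 0
    · have h2 := hzero a (hqs a h1) c
      simp [h2]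
    · have h2 : ((√(√(s a)) : ℝ) : ℂ) ≠ 0 := by exact_mod_cast h1
      field_simp
  · calc ∑ a, √(s a) ^ 2 = ∑ a, s a := Finset.sum_congr rfl fun a _ => Real.sq_sqrt (hs0 a)
      _ = ∑ a, ∑ c, ‖y a c‖ ^ 2 := Finset.sum_congr rfl fun a _ => hself a
      _ = ∑ c, ∑ a, ‖y a c‖ ^ 2 := Finset.sum_comm
      _ = ∑ c, ‖Z c‖ ^ 2 := Finset.sum_congr rfl fun c _ => b.sum_sq_norm_inner_right (Z c)

end Pool.Agent.Helper8.NE
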