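import Pool.Agent.Helper5.NE.Stmts

namespace Pool.Agent.Helper8.NE

open Pool.Agent.Helper5.NE Pool.Agent.Helper5.NE.RW

theorem Ls_inj (s : Fin 9) : Function.Injective (Ls s) :=
  Function.LeftInverse.injective (g := Ls s) (Ls_Ls s)

theorem step_bound (h : RW → ℝ) (h1 : ∀ F : Finset RW, ∑ x ∈ F, h x ^ 2 ≤ 1)
    (F : Finset RW) : ∑ x ∈ F, (∑ s : Fin 9, h (Ls s x)) ^ 2 ≤ 36 := by
  classical
  have hpt : ∀ x : RW, (∑ s : Fin 9, h (Ls s x)) ^ 2 ≤
      2 * (∑ s : Fin 9, if x.1.head? = some s then h (Ls s x) ^ 2 else 0) +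
      18 * (∑ s : Fin 9, if x.1.head? = some s then 0 else h (Ls s x) ^ 2) := by
    intro x
    have e1 : ∑ s : Fin 9, h (Ls s x) =
        (∑ s : Fin 9, if x.1.head? = some s then h (Ls s x) else 0) +
        (∑ s : Fin 9, if x.1.head? = some s then 0 else h (Ls s x)) := by
      rw [← Finset.sum_add_distrib]
      refine Finset.sum_congr rfl fun s _ => ?_
      split_ifs <;> simp
    have e2 : (∑ s : Fin 9, if x.1.head? = some s then h (Ls s x) else 0) ^ 2 =
        ∑ s : Fin 9, if x.1.head? = some s then h (Ls s x) ^ 2 else 0 := by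
      rcases hh : x.1.head? with _ | a
      · simp
      · simp only [Option.some.injEq, Finset.sum_ite_eq, Finset.mem_univ, if_true]
    have e3 : (∑ s : Fin 9, if x.1.head? = some s then 0 else h (Ls s x)) ^ 2 ≤
        9 * ∑ s : Fin 9, if x.1.head? = some s then 0 else h (Ls s x) ^ 2 := by
      have := sq_sum_le_card_mul_sum_sq (s := (Finset.univ : Finset (Fin 9)))
        (f := fun s => if x.1.head? = some s then 0 else h (Ls s x))
      simp only [Finset.card_univ, Fintype.card_fin] at this
      refine (this.trans_eq ?_)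
      push_cast
      congr 1
      refine Finset.sum_congr rfl fun s _ => ?_
      split_ifs <;> simp
    rw [e1]
    nlinarith [sq_nonneg ((∑ s : Fin 9, if x.1.head? = some s then h (Ls s x) else 0) -
        (∑ s : Fin 9, if x.1.head? = some s then 0 else h (Ls s x)))]
  have hP : ∑ x ∈ F, (∑ s : Fin 9, if x.1.head? = some s then h (Ls s x) ^ 2 else 0) ≤ 9 := by
    rw [Finset.sum_comm]
    calc ∑ s : Fin 9, ∑ x ∈ F, (if x.1.head? = some s then h (Ls s x) ^ 2 else 0)
        ≤ ∑ _s : Fin 9, (1 : ℝ) := by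
          refine Finset.sum_le_sum fun s _ => ?_
          calc ∑ x ∈ F, (if x.1.head? = some s then h (Ls s x) ^ 2 else 0)
              ≤ ∑ x ∈ F, h (Ls s x) ^ 2 := by
                refine Finset.sum_le_sum fun x _ => ?_
                split_ifs
                · exact le_rfl
                · positivity
            _ = ∑ y ∈ F.image (Ls s), h y ^ 2 := by
                rw [Finset.sum_image (fun x _ y _ hxy => Ls_inj s hxy)]
            _ ≤ 1 := h1 _
      _ = 9 := by simp
  have hQ : ∑ x ∈ F, (∑ s : Fin 9, if x.1.head? = some s then 0 else h (Ls s x) ^ 2) ≤ 1 := by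
    set G := (F ×ˢ (Finset.univ : Finset (Fin 9))).filter (fun p => ¬ p.1.1.head? = some p.2)
      with hG
    have e1 : ∑ x ∈ F, (∑ s : Fin 9, if x.1.head? = some s then 0 else h (Ls s x) ^ 2) =
        ∑ p ∈ G, h (Ls p.2 p.1) ^ 2 := by
      rw [hG, Finset.sum_filter, Finset.sum_product]
      refine Finset.sum_congr rfl fun x _ => Finset.sum_congr rfl fun s _ => ?_
      by_cases hx : x.1.head? = some s
      · simp [hx]
      · simp [hx]
    have hinj : Set.InjOn (fun p : RW × Fin 9 => Ls p.2 p.1) G := by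
      rintro ⟨x, s⟩ hx ⟨y, t⟩ hy hxy
      simp only [hG, Finset.coe_filter, Set.mem_setOf_eq, Finset.mem_product] at hx hy
      have h2 := congrArg Subtype.val hxy
      simp only [Ls_val, if_neg hx.2, if_neg hy.2] at h2
      rw [List.cons.injEq] at h2
      rw [Prod.mk.injEq]
      exact ⟨Subtype.ext h2.2, h2.1⟩
    rw [e1, ← Finset.sum_image (f := fun y => h y ^ 2) (g := fun p : RW × Fin 9 => Ls p.2 p.1)
      hinj]
    exact h1 _
  calc ∑ x ∈ F, (∑ s : Fin 9, h (Ls s x)) ^ 2
      ≤ ∑ x ∈ F, (2 * (∑ s : Fin 9, if x.1.head? = some s then h (Ls s x) ^ 2 else 0) +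
      18 * (∑ s : Fin 9, if x.1.head? = some s then 0 else h (Ls s x) ^ 2)) :=
        Finset.sum_le_sum fun x _ => hpt x
    _ = 2 * (∑ x ∈ F, (∑ s : Fin 9, if x.1.head? = some s then h (Ls s x) ^ 2 else 0)) +
      18 * ∑ x ∈ F, (∑ s : Fin 9, if x.1.head? = some s then 0 else h (Ls s x) ^ 2) := by
        rw [Finset.sum_add_distrib, Finset.mul_sum, Finset.mul_sum]
    _ ≤ 36 := by linarith

theorem kesten : KestenStmt := by
  intro h h0 h1 n
  induction n generalizing h with
  | zero =>
    have := h1 {RW.nil}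
    rw [Finset.sum_singleton] at this
    have h2 : h RW.nil ≤ 1 := by nlinarith [h0 RW.nil]
    simpa [Lw] using h2
  | succ n ih =>
    have e1 : ∑ v : Fin (n + 1) → Fin 9, h (Lw (List.ofFn v) RW.nil) =
        ∑ v : Fin n → Fin 9, ∑ s : Fin 9, h (Ls s (Lw (List.ofFn v) RW.nil)) := by
      rw [← (Fin.consEquiv (fun _ => Fin 9)).sum_comp, Fintype.sum_prod_type, Finset.sum_comm]
      refine Finset.sum_congr rfl fun v _ => Finset.sum_congr rfl fun s _ => ?_
      have : List.ofFn ((Fin.consEquiv (fun _ => Fin 9)) (s, v)) = s :: List.ofFn v := by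
        simp [Fin.consEquiv, List.ofFn_succ]
      rw [this]
      rfl
    have h2 := ih (fun x => (∑ s : Fin 9, h (Ls s x)) / 6)
      (fun x => div_nonneg (Finset.sum_nonneg fun s _ => h0 _) (by norm_num))
      (fun F => by
        have := step_bound h h1 F
        calc ∑ x ∈ F, ((∑ s : Fin 9, h (Ls s x)) / 6) ^ 2
            = (∑ x ∈ F, (∑ s : Fin 9, h (Ls s x)) ^ 2) / 36 := by
              rw [Finset.sum_div]
              refine Finset.sum_congr rfl fun x _ => ?_
              ring
          _ ≤ 1 := by linarith)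
    rw [← Finset.sum_div] at h2
    rw [e1, pow_succ]
    linarith

end Pool.Agent.Helper8.NE
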