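import Pool.Agent.Helper8.NE.Gram

namespace Pool.Agent.Helper8.NE

open Pool.Agent.Helper5.NE
open scoped InnerProductSpace ComplexConjugate
open Module Filter

/-- the kernel of the projection onto sum zero vectors -/
noncomputable def PP (k : ℕ) (c d : Fin k) : ℂ := (if c = d then 1 else 0) - 1 / (k : ℂ)

section PP

variable {k : ℕ}

theorem PP_trace (hk : k ≠ 0) : ∑ c : Fin k, PP k c c = (k : ℂ) - 1 := by
  have hk' : (k : ℂ) ≠ 0 := by exact_mod_cast hk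
  simp only [PP, if_true, Finset.sum_const, Finset.card_univ, Fintype.card_fin, nsmul_eq_mul]
  field_simp

theorem PP_pair (S : Fin k → Fin k → ℂ) (hS : ∑ c, ∑ d, S c d = 0) :
    ∑ c, ∑ d, S c d * conj (PP k c d) = ∑ c, S c c := by
  have h1 : ∀ c d, S c d * conj (PP k c d) = (if c = d then S c d else 0) - S c d / (k : ℂ) := by
    intro c d
    simp only [PP, map_sub, map_div₀, map_one, Complex.conj_natCast]
    split_ifs <;> simp [mul_sub, div_eq_mul_inv]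
  simp only [h1, Finset.sum_sub_distrib, Finset.sum_ite_eq, Finset.mem_univ, if_true]
  have h2 : ∑ c, ∑ d, S c d / (k : ℂ) = (∑ c, ∑ d, S c d) / (k : ℂ) := by
    simp only [Finset.sum_div]
  rw [h2, hS, zero_div, sub_zero]

theorem PP_sum (hk : k ≠ 0) : ∑ c : Fin k, ∑ d : Fin k, PP k c d = 0 := by
  have hk' : (k : ℂ) ≠ 0 := by exact_mod_cast hk
  simp only [PP, Finset.sum_sub_distrib, Finset.sum_ite_eq, Finset.mem_univ, if_true,
    Finset.sum_const, Finset.card_univ, Fintype.card_fin, nsmul_eq_mul]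
  field_simp
  ring

theorem PP_hs (hk : k ≠ 0) : ∑ c : Fin k, ∑ d : Fin k, ‖PP k c d‖ ^ 2 = (k : ℝ) - 1 := by
  have h := PP_pair (fun c d => PP k c d) (PP_sum hk)
  rw [PP_trace hk] at h
  have h2 : ((∑ c : Fin k, ∑ d : Fin k, ‖PP k c d‖ ^ 2 : ℝ) : ℂ) = (((k : ℝ) - 1 : ℝ) : ℂ) := by
    push_cast
    rw [← h]
    refine Finset.sum_congr rfl fun c _ => Finset.sum_congr rfl fun d _ => ?_
    rw [Complex.mul_conj']
  exact_mod_cast h2

end PP

/-- The second factor. -/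
theorem second_factor {η : ℝ} (hη : 0 < η) {m k : ℕ} (hk : 5 ≤ k) (w : Fin m → Equiv.Perm (Fin k))
    (hw : ∀ v : Fin k → Fin k → ℂ, ∑ i, v i i = 0 → ∑ i, ∑ j, v i j = 0 →
    ∑ i, ∑ j, ‖∑ l, v (w l i) (w l j)‖ ^ 2 ≤ (η * m) ^ 2 * ∑ i, ∑ j, ‖v i j‖ ^ 2)
    {n : ℕ} {p q : Fin n → ℝ} {z e : Fin n → Fin k → ℂ} (hz : Sch n k p z) (he : Sch n k q e) :
    ∑ j, ∑ a, ∑ b, ‖∑ c, z a c * conj (e b (w j c))‖ ^ 2 ≤
      m * (√(∑ a, p a ^ 2) * √(∑ a, q a ^ 2)) * (η + n / (k - 1)) := by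
  have hk0 : k ≠ 0 := by omega
  have hk1 : (0 : ℝ) < (k : ℝ) - 1 := by
    have : (5 : ℝ) ≤ k := by exact_mod_cast hk
    linarith
  set A := √(∑ a, p a ^ 2) with hA
  set B := √(∑ a, q a ^ 2) with hB
  set S := gram z with hS
  set T := gram e with hT
  set τ : ℝ := (∑ b, q b) / ((k : ℝ) - 1) with hτ
  set T' : Fin k → Fin k → ℂ := fun c d => T c d - τ * PP k c d with hT'
  set R : Fin k → Fin k → ℂ := fun c d => ∑ j, T' (w j c) (w j d) with hR
  set V : ℝ := ∑ j, ∑ a, ∑ b, ‖∑ c, z a c * conj (e b (w j c))‖ ^ 2 with hV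
  -- the value as a pairing of kernels
  have h1 : (V : ℂ) = ∑ c, ∑ d, S c d * conj (∑ j, T (w j c) (w j d)) := by
    rw [hV]
    push_cast
    calc ∑ j, ∑ a, ∑ b, ((‖∑ c, z a c * conj (e b (w j c))‖ : ℝ) : ℂ) ^ 2
        = ∑ j, ∑ a, ∑ b, ∑ c, ∑ d, (z a c * conj (z a d)) *
            conj (e b (w j c) * conj (e b (w j d))) := by
          refine Finset.sum_congr rfl fun j _ => Finset.sum_congr rfl fun a _ =>
            Finset.sum_congr rfl fun b _ => ?_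
          rw [← Complex.mul_conj', map_sum, Finset.sum_mul_sum]
          refine Finset.sum_congr rfl fun c _ => Finset.sum_congr rfl fun d _ => ?_
          simp only [map_mul, Complex.conj_conj]
          ring
      _ = ∑ j, ∑ c, ∑ d, ∑ a, ∑ b, (z a c * conj (z a d)) *
            conj (e b (w j c) * conj (e b (w j d))) :=
          Finset.sum_congr rfl fun j _ => (sum4 _).symm
      _ = ∑ j, ∑ c, ∑ d, S c d * conj (T (w j c) (w j d)) := by
          refine Finset.sum_congr rfl fun j _ => Finset.sum_congr rfl fun c _ =>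
            Finset.sum_congr rfl fun d _ => ?_
          rw [hS, hT, gram, gram, map_sum, Finset.sum_mul_sum]
      _ = ∑ c, ∑ d, ∑ j, S c d * conj (T (w j c) (w j d)) := by
          rw [Finset.sum_comm]
          exact Finset.sum_congr rfl fun c _ => Finset.sum_comm
      _ = ∑ c, ∑ d, S c d * conj (∑ j, T (w j c) (w j d)) := by
          refine Finset.sum_congr rfl fun c _ => Finset.sum_congr rfl fun d _ => ?_
          rw [map_sum, Finset.mul_sum]
  have hPw : ∀ j c d, PP k (w j c) (w j d) = PP k c d := by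
    intro j c d
    simp only [PP, EmbeddingLike.apply_eq_iff_eq]
  have h2 : ∀ c d, ∑ j, T (w j c) (w j d) = R c d + (m : ℂ) * τ * PP k c d := by
    intro c d
    simp only [hR, hT', Finset.sum_sub_distrib, hPw, Finset.sum_const, Finset.card_univ,
      Fintype.card_fin, nsmul_eq_mul]
    ring
  have hSsum : ∑ c, ∑ d, S c d = 0 := gram_sum hz
  have hTsum : ∑ c, ∑ d, T c d = 0 := gram_sum he
  have h3 : (V : ℂ) = ∑ c, ∑ d, S c d * conj (R c d) + (m : ℂ) * τ * ((∑ a, p a : ℝ) : ℂ) := by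
    rw [h1, ← gram_trace hz, ← PP_pair S hSsum, Finset.mul_sum, ← Finset.sum_add_distrib]
    refine Finset.sum_congr rfl fun c _ => ?_
    rw [Finset.mul_sum, ← Finset.sum_add_distrib]
    refine Finset.sum_congr rfl fun d _ => ?_
    rw [h2, map_add, map_mul, map_mul, Complex.conj_natCast, Complex.conj_ofReal]
    ring
  have hq0 : 0 ≤ ∑ b, q b := Finset.sum_nonneg fun b _ => he.nonneg b
  have hp0 : 0 ≤ ∑ a, p a := Finset.sum_nonneg fun b _ => hz.nonneg b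
  have hτ0 : 0 ≤ τ := div_nonneg hq0 hk1.le
  have hτk : τ * ((k : ℝ) - 1) = ∑ b, q b := by rw [hτ]; field_simp
  -- `T'`
  have hT'tr : ∑ c, T' c c = 0 := by
    simp only [hT', Finset.sum_sub_distrib]
    rw [← Finset.mul_sum, PP_trace hk0, gram_trace he, ← hτk]
    push_cast
    ring
  have hT'sum : ∑ c, ∑ d, T' c d = 0 := by
    simp only [hT', Finset.sum_sub_distrib]
    rw [hTsum]
    simp only [← Finset.mul_sum]
    rw [PP_sum hk0]
    ring
  have hT'hs : ∑ c, ∑ d, ‖T' c d‖ ^ 2 ≤ B ^ 2 := by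
    have e1 : ∀ c d, ‖T' c d‖ ^ 2 = ‖T c d‖ ^ 2 + τ ^ 2 * ‖PP k c d‖ ^ 2
        - 2 * τ * (T c d * conj (PP k c d)).re := by
      intro c d
      simp only [hT', ← Complex.normSq_eq_norm_sq]
      rw [Complex.normSq_sub, Complex.normSq_mul, Complex.normSq_ofReal, map_mul,
        Complex.conj_ofReal]
      have : (T c d * ((τ : ℂ) * conj (PP k c d))).re = τ * (T c d * conj (PP k c d)).re := by
        rw [← mul_assoc, mul_comm (T c d), mul_assoc, Complex.re_ofReal_mul]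
      rw [this]
      ring
    have e2 : ∑ c, ∑ d, (T c d * conj (PP k c d)).re = ∑ b, q b := by
      have := congrArg Complex.re ((PP_pair T hTsum).trans (gram_trace he))
      simpa using this
    have e3 : ∑ c, ∑ d, ‖T' c d‖ ^ 2 = ∑ c, ∑ d, ‖T c d‖ ^ 2
        + τ ^ 2 * (∑ c : Fin k, ∑ d : Fin k, ‖PP k c d‖ ^ 2)
        - 2 * τ * ∑ c, ∑ d, (T c d * conj (PP k c d)).re := by
      simp only [e1, Finset.sum_sub_distrib, Finset.sum_add_distrib, Finset.mul_sum]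
    rw [e3, e2, PP_hs hk0, gram_hs he, hB, Real.sq_sqrt (by positivity)]
    nlinarith [mul_nonneg hτ0 hτ0]
  have hRhs : √(∑ c, ∑ d, ‖R c d‖ ^ 2) ≤ η * m * B := by
    have e1 := hw T' hT'tr hT'sum
    calc √(∑ c, ∑ d, ‖R c d‖ ^ 2) ≤ √((η * m) ^ 2 * B ^ 2) := by
          apply Real.sqrt_le_sqrt
          exact e1.trans (by gcongr)
      _ = η * m * B := by
          rw [← mul_pow, Real.sqrt_sq (by positivity)]
  have hSR : ‖∑ c, ∑ d, S c d * conj (R c d)‖ ≤ A * (η * m * B) := by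
    have e1 := cs2 S (fun c d => conj (R c d))
    simp only [RCLike.norm_conj] at e1
    refine e1.trans ?_
    rw [gram_hs hz]
    gcongr
  have hpA := sum_p_le p
  have hqB := sum_p_le q
  have hprod : (∑ a, p a) * (∑ b, q b) ≤ n * (A * B) := by
    calc (∑ a, p a) * (∑ b, q b) ≤ (√n * A) * (√n * B) := by gcongr
      _ = (√n * √n) * (A * B) := by ring
      _ = n * (A * B) := by rw [Real.mul_self_sqrt (Nat.cast_nonneg n)]
  have hVn : V ≤ A * (η * m * B) + m * τ * ∑ a, p a := by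
    have e1 : V ≤ ‖(V : ℂ)‖ := by
      rw [Complex.norm_real]; exact le_abs_self _
    refine e1.trans ?_
    rw [h3]
    refine (norm_add_le _ _).trans (add_le_add hSR (le_of_eq ?_))
    rw [norm_mul, norm_mul, Complex.norm_natCast, Complex.norm_real, Complex.norm_real,
      Real.norm_of_nonneg hτ0, Real.norm_of_nonneg hp0]
  refine hVn.trans ?_
  have e2 : (m : ℝ) * τ * ∑ a, p a ≤ m * (n * (A * B) / ((k : ℝ) - 1)) := by
    have : (m : ℝ) * τ * ∑ a, p a = m * (((∑ a, p a) * (∑ b, q b)) / ((k : ℝ) - 1)) := by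
      rw [hτ]; ring
    rw [this]
    gcongr
  calc A * (η * m * B) + m * τ * ∑ a, p a ≤ A * (η * m * B) + m * (n * (A * B) / ((k : ℝ) - 1)) := by
        linarith
    _ = m * (A * B) * (η + n / (k - 1)) := by ring

/-- The first factor. -/
theorem first_factor {L : Type} [NormedAddCommGroup L] [InnerProductSpace ℂ L]
    [FiniteDimensional ℂ L] {n : ℕ} (b b' : OrthonormalBasis (Fin n) ℂ L) (f : L →L[ℂ] L)
    (hf : ‖f‖ ≤ 1) (p q : Fin n → ℝ) (hp : ∀ a, 0 ≤ p a) (hq : ∀ a, 0 ≤ q a) :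
    ∑ a, ∑ c, ‖((√(p a) : ℝ) : ℂ) * ((√(q c) : ℝ) : ℂ) * ⟪b' c, f (b a)⟫_ℂ‖ ^ 2 ≤
      √(∑ a, p a ^ 2) * √(∑ a, q a ^ 2) := by
  have h1 : ∀ a c, ‖((√(p a) : ℝ) : ℂ) * ((√(q c) : ℝ) : ℂ) * ⟪b' c, f (b a)⟫_ℂ‖ ^ 2 =
      (p a * ‖⟪b' c, f (b a)⟫_ℂ‖) * (q c * ‖⟪b' c, f (b a)⟫_ℂ‖) := by
    intro a c
    rw [norm_mul, norm_mul, Complex.norm_real, Complex.norm_real, Real.norm_of_nonneg
      (Real.sqrt_nonneg _), Real.norm_of_nonneg (Real.sqrt_nonneg _), mul_pow, mul_pow,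
      Real.sq_sqrt (hp a), Real.sq_sqrt (hq c)]
    ring
  simp only [h1]
  refine (csr2 _ _).trans ?_
  gcongr ?_ * ?_
  · apply Real.sqrt_le_sqrt
    refine Finset.sum_le_sum fun a _ => ?_
    have h2 : ∑ c, (p a * ‖⟪b' c, f (b a)⟫_ℂ‖) ^ 2 = p a ^ 2 * ‖f (b a)‖ ^ 2 := by
      rw [← b'.sum_sq_norm_inner_right (f (b a)), Finset.mul_sum]
      exact Finset.sum_congr rfl fun c _ => mul_pow _ _ _
    rw [h2]
    have h3 : ‖f (b a)‖ ≤ 1 := by
      calc ‖f (b a)‖ ≤ ‖f‖ * ‖b a‖ := f.le_opNorm _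
        _ ≤ 1 * 1 := by gcongr; rw [b.norm_eq_one]
        _ = 1 := one_mul 1
    calc p a ^ 2 * ‖f (b a)‖ ^ 2 ≤ p a ^ 2 * 1 ^ 2 := by gcongr
      _ = p a ^ 2 := by ring
  · apply Real.sqrt_le_sqrt
    rw [Finset.sum_comm]
    refine Finset.sum_le_sum fun c _ => ?_
    have h2 : ∑ a, (q c * ‖⟪b' c, f (b a)⟫_ℂ‖) ^ 2 = q c ^ 2 * ‖f.adjoint (b' c)‖ ^ 2 := by
      rw [← b.sum_sq_norm_inner_left (f.adjoint (b' c)), Finset.mul_sum]
      refine Finset.sum_congr rfl fun a _ => ?_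
      rw [mul_pow, ContinuousLinearMap.adjoint_inner_left]
    rw [h2]
    have h3 : ‖f.adjoint (b' c)‖ ≤ 1 := by
      calc ‖f.adjoint (b' c)‖ ≤ ‖f.adjoint‖ * ‖b' c‖ := f.adjoint.le_opNorm _
        _ ≤ 1 * 1 := by
            rw [LinearIsometryEquiv.norm_map, b'.norm_eq_one]
            gcongr
        _ = 1 := one_mul 1
    calc q c ^ 2 * ‖f.adjoint (b' c)‖ ^ 2 ≤ q c ^ 2 * 1 ^ 2 := by gcongr
      _ = q c ^ 2 := by ring

theorem qe (h : GapStmt) : QEStmt := by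
  intro δ hδ
  obtain ⟨m, hm, w, hw⟩ := h (δ ^ 2 / 2) (by positivity)
  refine ⟨m, hm, w, fun N => ?_⟩
  obtain ⟨K, hK⟩ := exists_nat_ge (2 * N / δ ^ 2 + 1)
  filter_upwards [eventually_ge_atTop 5, eventually_ge_atTop K] with k hk5 hkK
  intro L _ _ _ hN f hf Z E hZ hE
  have hk1 : (0 : ℝ) < (k : ℝ) - 1 := by
    have : (5 : ℝ) ≤ k := by exact_mod_cast hk5
    linarith
  have hkN : (N : ℝ) / ((k : ℝ) - 1) ≤ δ ^ 2 / 2 := by
    have h1 : 2 * N / δ ^ 2 ≤ (k : ℝ) - 1 := by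
      have : (K : ℝ) ≤ k := by exact_mod_cast hkK
      linarith
    rw [div_le_iff₀ (by positivity)] at h1
    rw [div_le_iff₀ hk1]
    linarith
  obtain ⟨bZ, p, z, hz, hzin, hzn⟩ := schmidt Z hZ
  obtain ⟨bE, q, e, he, hein, hen⟩ := schmidt E hE
  set A := √(∑ a, p a ^ 2) with hA
  set B := √(∑ a, q a ^ 2) with hB
  have hA' : √(∑ c, ‖Z c‖ ^ 2) = A := by rw [hA, hzn]
  have hB' : √(∑ c, ‖E c‖ ^ 2) = B := by rw [hB, hen]
  rw [hA', hB']
  -- expansion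
  have hexp : ∀ j c, ⟪E (w k j c), f j (Z c)⟫_ℂ = ∑ a, ∑ b,
      (((√(p a) : ℝ) : ℂ) * ((√(q b) : ℝ) : ℂ) * ⟪bE b, f j (bZ a)⟫_ℂ) *
        (z a c * conj (e b (w k j c))) := by
    intro j c
    have e1 : Z c = ∑ a, (((√(p a) : ℝ) : ℂ) * z a c) • bZ a := by
      rw [← bZ.sum_repr' (Z c)]
      exact Finset.sum_congr rfl fun a _ => by rw [hzin]
    have e2 : E (w k j c) = ∑ b, (((√(q b) : ℝ) : ℂ) * e b (w k j c)) • bE b := by
      rw [← bE.sum_repr' (E (w k j c))]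
      exact Finset.sum_congr rfl fun a _ => by rw [hein]
    rw [e1, e2, map_sum, inner_sum]
    refine Finset.sum_congr rfl fun a _ => ?_
    rw [sum_inner]
    refine Finset.sum_congr rfl fun b _ => ?_
    rw [map_smul, inner_smul_left, inner_smul_right, map_mul, Complex.conj_ofReal]
    ring
  have hsum : ∑ j, ∑ c, ⟪E (w k j c), f j (Z c)⟫_ℂ = ∑ j, ∑ a, ∑ b,
      (((√(p a) : ℝ) : ℂ) * ((√(q b) : ℝ) : ℂ) * ⟪bE b, f j (bZ a)⟫_ℂ) *
        ∑ c, z a c * conj (e b (w k j c)) := by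
    refine Finset.sum_congr rfl fun j _ => ?_
    simp only [hexp]
    rw [Finset.sum_comm]
    refine Finset.sum_congr rfl fun a _ => ?_
    rw [Finset.sum_comm]
    refine Finset.sum_congr rfl fun b _ => ?_
    rw [Finset.mul_sum]
  rw [hsum]
  refine (cs3 _ _).trans ?_
  have hX : ∑ j, ∑ a, ∑ b,
      ‖((√(p a) : ℝ) : ℂ) * ((√(q b) : ℝ) : ℂ) * ⟪bE b, f j (bZ a)⟫_ℂ‖ ^ 2 ≤ m * (A * B) := by
    calc _ ≤ ∑ _j : Fin m, A * B := Finset.sum_le_sum fun j _ =>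
          first_factor bZ bE (f j) (hf j) p q hz.nonneg he.nonneg
      _ = m * (A * B) := by simp
  have hY := second_factor (η := δ ^ 2 / 2) (by positivity) hk5 (w k) (hw k hk5) hz he
  have hY2 : ∑ j, ∑ a, ∑ b, ‖∑ c, z a c * conj (e b (w k j c))‖ ^ 2 ≤ m * (A * B) * δ ^ 2 := by
    refine hY.trans ?_
    have h1 : ((finrank ℂ L : ℕ) : ℝ) / ((k : ℝ) - 1) ≤ δ ^ 2 / 2 := by
      refine le_trans ?_ hkN
      gcongr
    have h2 : 0 ≤ (m : ℝ) * (A * B) := by positivity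
    nlinarith
  calc √(∑ j, ∑ a, ∑ b,
        ‖((√(p a) : ℝ) : ℂ) * ((√(q b) : ℝ) : ℂ) * ⟪bE b, f j (bZ a)⟫_ℂ‖ ^ 2) *
        √(∑ j, ∑ a, ∑ b, ‖∑ c, z a c * conj (e b (w k j c))‖ ^ 2)
      ≤ √(m * (A * B)) * √(m * (A * B) * δ ^ 2) := by gcongr
    _ = δ * m * (A * B) := by
        have h1 : √((m : ℝ) * (A * B) * δ ^ 2) = √((m : ℝ) * (A * B)) * δ := by
          rw [Real.sqrt_mul (by positivity) (δ ^ 2), Real.sqrt_sq hδ.le]
        rw [h1, ← mul_assoc, Real.mul_self_sqrt (by positivity)]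
        ring

end Pool.Agent.Helper8.NE
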